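import Mathlib
import Pool.Agent.MaxDeg.Core

/-!
# Forcing `k` vertices of maximum degree by deleting `O(√n)` vertices
-/

set_option autoImplicit false

namespace Pool.Agent.Results.MP_7c5d5d_co.MaxDegreeDeletion

open Finset

universe u

/-- The vertices of maximum degree of the (finite) graph `H`. -/
def MaxDegreeVertices {W : Type u} (H : SimpleGraph W) : Set W :=
  {w | ∀ w' : W, Nat.card (H.neighborSet w') ≤ Nat.card (H.neighborSet w)}

/-- `f_k(G)`: the least number of vertices whose deletion leaves an induced subgraph `H` with at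
least `k` vertices of maximum degree, or with fewer than `k` vertices. -/
noncomputable def fk {V : Type u} (k : ℕ) (G : SimpleGraph V) : ℕ :=
  sInf {d | ∃ D : Finset V, D.card = d ∧
    (k ≤ Nat.card (MaxDegreeVertices (G.induce {v | v ∉ D})) ∨ Nat.card {v | v ∉ D} < k)}

/-- `f(n,k)`: the maximum of `f_k(G)` over the graphs with at most `n` vertices. -/
noncomputable def f (n k : ℕ) : ℕ :=
  sSup {m | ∃ j ≤ n, ∃ G : SimpleGraph (Fin j), fk k G = m}

/-! ### transport along a bijection -/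

/-- the property asked from the deleted set `D` -/
def Ok {V : Type u} (k : ℕ) (G : SimpleGraph V) (D : Finset V) : Prop :=
  k ≤ Nat.card (MaxDegreeVertices (G.induce {v | v ∉ D})) ∨ Nat.card {v | v ∉ D} < k

lemma mem_iff {V : Type u} [Fintype V] (G : SimpleGraph V) (D : Finset V) (w : {v | v ∉ D}) :
    w ∈ MaxDegreeVertices (G.induce {v | v ∉ D}) ↔
      ∀ w' : V, w' ∉ D → Nat.card {x : V // x ∉ D ∧ G.Adj w' x} ≤
        Nat.card {x : V // x ∉ D ∧ G.Adj w.1 x} := by
  have key : ∀ z : {v | v ∉ D}, Nat.card ((G.induce {v | v ∉ D}).neighborSet z) =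
      Nat.card {x : V // x ∉ D ∧ G.Adj z.1 x} := by
    intro z
    refine Nat.card_congr ⟨fun y => ⟨y.1.1, y.1.2, y.2⟩, fun y => ⟨⟨y.1, y.2.1⟩, y.2.2⟩,
      fun y => rfl, fun y => rfl⟩
  constructor
  · intro h w' hw'
    have := h ⟨w', hw'⟩
    rw [key, key] at this
    exact this
  · intro h w'
    rw [key, key]
    exact h w'.1 w'.2

lemma card_max {V : Type u} [Fintype V] (G : SimpleGraph V) (D : Finset V) :
    Nat.card (MaxDegreeVertices (G.induce {v | v ∉ D})) =
      Nat.card {w : V // w ∉ D ∧ ∀ w' : V, w' ∉ D → Nat.card {x : V // x ∉ D ∧ G.Adj w' x} ≤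
        Nat.card {x : V // x ∉ D ∧ G.Adj w x}} := by
  refine Nat.card_congr ⟨fun y => ⟨y.1.1, y.1.2, (mem_iff G D y.1).1 y.2⟩,
    fun y => ⟨⟨y.1, y.2.1⟩, (mem_iff G D ⟨y.1, y.2.1⟩).2 y.2.2⟩, fun y => rfl, fun y => rfl⟩

lemma ok_iff {V : Type u} [Fintype V] (k : ℕ) (G : SimpleGraph V) (D : Finset V) :
    Ok k G D ↔ (k ≤ Nat.card {w : V // w ∉ D ∧ ∀ w' : V, w' ∉ D →
        Nat.card {x : V // x ∉ D ∧ G.Adj w' x} ≤ Nat.card {x : V // x ∉ D ∧ G.Adj w x}} ∨
      Nat.card {v : V // v ∉ D} < k) := by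
  unfold Ok
  rw [card_max]
  rfl

lemma ok_map {V : Type u} [Fintype V] {W : Type*} [Fintype W] (e : W ≃ V) (k : ℕ)
    (G : SimpleGraph V) (D : Finset W) (h : Ok k (G.comap e) D) :
    Ok k G (D.map e.toEmbedding) := by
  rw [ok_iff] at h ⊢
  have hD : ∀ w : W, e w ∉ D.map e.toEmbedding ↔ w ∉ D := by
    intro w
    simp
  have hdeg : ∀ w : W, Nat.card {x : V // x ∉ D.map e.toEmbedding ∧ G.Adj (e w) x} =
      Nat.card {x : W // x ∉ D ∧ (G.comap e).Adj w x} := by
    intro w
    refine (Nat.card_congr ?_).symm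
    refine Equiv.subtypeEquiv e ?_
    intro x
    rw [hD]
    rfl
  have h1 : Nat.card {w : V // w ∉ D.map e.toEmbedding ∧ ∀ w' : V, w' ∉ D.map e.toEmbedding →
        Nat.card {x : V // x ∉ D.map e.toEmbedding ∧ G.Adj w' x} ≤
          Nat.card {x : V // x ∉ D.map e.toEmbedding ∧ G.Adj w x}} =
      Nat.card {w : W // w ∉ D ∧ ∀ w' : W, w' ∉ D →
        Nat.card {x : W // x ∉ D ∧ (G.comap e).Adj w' x} ≤
          Nat.card {x : W // x ∉ D ∧ (G.comap e).Adj w x}} := by
    refine (Nat.card_congr ?_).symm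
    refine Equiv.subtypeEquiv e ?_
    intro w
    rw [hD]
    refine and_congr_right (fun _ => ?_)
    constructor
    · intro h w' hw'
      obtain ⟨v, rfl⟩ := e.surjective w'
      rw [hdeg, hdeg]
      exact h v ((hD v).1 hw')
    · intro h w' hw'
      have := h (e w') ((hD w').2 hw')
      rw [hdeg, hdeg] at this
      exact this
  have h2 : Nat.card {v : V // v ∉ D.map e.toEmbedding} = Nat.card {v : W // v ∉ D} := by
    refine (Nat.card_congr ?_).symm
    exact Equiv.subtypeEquiv e (fun w => (hD w).symm)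
  rw [h1, h2]
  exact h

/-! ### the main bound on `Fin n` -/

open Pool.Agent.MaxDeg in
/-- transfer from an induced subgraph on a kept set back to the whole vertex set -/
lemma transfer {V : Type} [DecidableEq V] (G : SimpleGraph V) [DecidableRel G.Adj]
    (S0 : Finset V) (S : Finset {x // x ∈ S0}) (v : {x // x ∈ S0}) :
    (nb (G.comap (Subtype.val : {x // x ∈ S0} → V)) S v).card =
      (nb G (S.map (Function.Embedding.subtype _)) v.val).card := by
  have h : nb G (S.map (Function.Embedding.subtype _)) v.val =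
      (nb (G.comap (Subtype.val : {x // x ∈ S0} → V)) S v).map
        (Function.Embedding.subtype _) := by
    ext u
    simp only [nb, mem_filter, mem_map, Function.Embedding.coe_subtype, SimpleGraph.comap_adj]
    constructor
    · rintro ⟨⟨w, hw, rfl⟩, h2⟩
      exact ⟨w, ⟨hw, h2⟩, rfl⟩
    · rintro ⟨w, ⟨hw, h2⟩, rfl⟩
      exact ⟨⟨w, hw, rfl⟩, h2⟩
  rw [h, card_map]

open Pool.Agent.MaxDeg in
/-- a set with `k` vertices of maximum degree in the kept set stays one in the whole graph -/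
lemma transfer_good {V : Type} [DecidableEq V] (G : SimpleGraph V) [DecidableRel G.Adj]
    (S0 : Finset V) (S1 : Finset {x // x ∈ S0}) (k : ℕ)
    (h : Good (G.comap (Subtype.val : {x // x ∈ S0} → V)) k S1) :
    Good G k (S1.map (Function.Embedding.subtype _)) := by
  have hF : ∃ F : Finset V, k ≤ F.card ∧ ∀ v ∈ F, v ∈ S1.map (Function.Embedding.subtype _) ∧
      ∀ w ∈ S1.map (Function.Embedding.subtype _),
        (nb G (S1.map (Function.Embedding.subtype _)) w).card ≤
        (nb G (S1.map (Function.Embedding.subtype _)) v).card := by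
    refine ⟨(S1.filter (fun v => ∀ w ∈ S1,
      (nb (G.comap (Subtype.val : {x // x ∈ S0} → V)) S1 w).card ≤
      (nb (G.comap (Subtype.val : {x // x ∈ S0} → V)) S1 v).card)).map
          (Function.Embedding.subtype _), ?_, ?_⟩
    · rw [card_map]
      unfold Good at h
      convert h
    · intro x hx
      rw [mem_map] at hx
      obtain ⟨v, hv, rfl⟩ := hx
      rw [mem_filter] at hv
      refine ⟨mem_map_of_mem _ hv.1, ?_⟩
      intro w hw
      rw [mem_map] at hw
      obtain ⟨w', hw', rfl⟩ := hw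
      have h4 := hv.2 w' hw'
      rw [transfer, transfer] at h4
      exact h4
  obtain ⟨F, hF1, hF2⟩ := hF
  unfold Good
  refine le_trans hF1 (card_le_card ?_)
  intro v hv
  rw [mem_filter]
  exact hF2 v hv

open Pool.Agent.MaxDeg in
/-- large graphs -/
lemma large (k : ℕ) (hk : 1 ≤ k) : ∃ C : ℝ, 0 ≤ C ∧ ∃ N : ℕ,
    ∀ (V : Type) [Fintype V] [DecidableEq V] (G : SimpleGraph V) [DecidableRel G.Adj],
      N ≤ Fintype.card V → ∃ S : Finset V,
        ((univ \ S).card : ℝ) ≤ C * Real.sqrt (Fintype.card V) ∧ Good G k S := by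
  obtain ⟨K, C, R0, hK, hC, hcore⟩ := core k hk
  have hK' : (1 : ℝ) ≤ K := by exact_mod_cast hK
  obtain ⟨N, hN1, hNR, hNK⟩ : ∃ N : ℕ, 1 ≤ N ∧ (∀ n : ℕ, N ≤ n → R0 ≤ Real.sqrt n) ∧
      (∀ n : ℕ, N ≤ n → (K : ℝ) * (Real.sqrt n + 2) ≤ n) := by
    refine ⟨max (max 1 ⌈R0 ^ 2⌉₊) (9 * K ^ 2), ?_, ?_, ?_⟩
    · exact (le_max_left _ _).trans (le_max_left _ _)
    · intro n hn
      have h1 : ⌈R0 ^ 2⌉₊ ≤ n := ((le_max_right _ _).trans (le_max_left _ _)).trans hn
      have h2 : R0 ^ 2 ≤ n := Nat.ceil_le.1 h1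
      exact Real.le_sqrt_of_sq_le h2
    · intro n hn
      have h1 : 9 * K ^ 2 ≤ n := (le_max_right _ _).trans hn
      have h2 : (9 : ℝ) * K ^ 2 ≤ n := by exact_mod_cast h1
      have h3 : 3 * (K : ℝ) ≤ Real.sqrt n := by
        apply Real.le_sqrt_of_sq_le
        linarith
      have h4 : Real.sqrt n * Real.sqrt n = n := Real.mul_self_sqrt (by positivity)
      have h5 : (1 : ℝ) ≤ Real.sqrt n := by linarith
      nlinarith
  refine ⟨2 * (K + C), by linarith, N, ?_⟩
  intro V _ _ G _ hcard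
  set n := Fintype.card V with hn
  have hn1 : 1 ≤ n := hN1.trans hcard
  have hn1' : (1 : ℝ) ≤ n := by exact_mod_cast hn1
  set R := ⌈Real.sqrt n⌉₊ with hR
  have hRge : Real.sqrt n ≤ R := Nat.le_ceil _
  have hRle : (R : ℝ) ≤ Real.sqrt n + 1 := (Nat.ceil_lt_add_one (Real.sqrt_nonneg _)).le
  have hRsq : (n : ℝ) ≤ (R : ℝ) ^ 2 := by
    calc (n : ℝ) = Real.sqrt n ^ 2 := (Real.sq_sqrt (by positivity)).symm
      _ ≤ (R : ℝ) ^ 2 := by
          have := Real.sqrt_nonneg (n : ℝ)
          gcongr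
  have hRsq' : n ≤ R * R := by
    have : (n : ℝ) ≤ ((R * R : ℕ) : ℝ) := by
      push_cast
      nlinarith
    exact_mod_cast this
  have hsq1 : (1 : ℝ) ≤ Real.sqrt n := by
    rw [Real.one_le_sqrt]
    exact hn1'
  obtain ⟨S0, _, hS0c, D, hD, T, hTS0, hTK, hT⟩ := prescan G K R R univ
    (by
      intro v _
      exact (nb_card_le G _ _).trans (by rw [card_univ]; exact hRsq'))
    (by
      rw [card_univ]
      have h1 := hNK n hcard
      have h2 : ((K * (R + 1) : ℕ) : ℝ) ≤ n := by
        push_cast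
        nlinarith
      exact_mod_cast h2)
  set G' := G.comap (Subtype.val : {x // x ∈ S0} → V) with hG'
  have hmapuniv : (univ : Finset {x // x ∈ S0}).map (Function.Embedding.subtype _) = S0 := by
    ext u
    simp
  set T' : Finset {x // x ∈ S0} := T.subtype (fun x => x ∈ S0) with hT'
  have hT'card : T'.card = K := by
    rw [hT', card_subtype, filter_true_of_mem (fun x hx => hTS0 hx), hTK]
  obtain ⟨S1, hS1c, hS1g⟩ := hcore G' D (R : ℝ) ((hNR n hcard).trans hRge)
    (by
      rw [Fintype.card_coe]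
      have h1 : S0.card ≤ n := card_le_univ _
      have h2 : (S0.card : ℝ) ≤ n := by exact_mod_cast h1
      linarith)
    (by
      intro v
      rw [transfer, hmapuniv]
      exact hD v.val v.2)
    T' hT'card
    (by
      intro v hv
      rw [transfer, hmapuniv]
      rw [hT', mem_subtype] at hv
      exact_mod_cast hT v.val hv)
  set S := S1.map (Function.Embedding.subtype _) with hS
  refine ⟨S, ?_, transfer_good G S0 S1 k hS1g⟩
  have h2 : (univ \ S).card ≤ (univ \ S0).card + (univ \ S1).card := by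
    have h3 : univ \ S ⊆ (univ \ S0) ∪ (univ \ S1).map (Function.Embedding.subtype _) := by
      intro w hw
      rw [mem_union, mem_sdiff]
      by_cases hw0 : w ∈ S0
      · right
        rw [mem_map]
        refine ⟨⟨w, hw0⟩, ?_, rfl⟩
        rw [mem_sdiff]
        refine ⟨mem_univ _, fun h => ?_⟩
        apply (mem_sdiff.1 hw).2
        rw [hS, mem_map]
        exact ⟨⟨w, hw0⟩, h, rfl⟩
      · exact Or.inl ⟨mem_univ _, hw0⟩
    calc (univ \ S).card ≤ _ := card_le_card h3
      _ ≤ (univ \ S0).card + ((univ \ S1).map (Function.Embedding.subtype _)).card :=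
        card_union_le _ _
      _ = _ := by rw [card_map]
  have h4 : (((univ \ S).card : ℕ) : ℝ) ≤ K * R + C * R := by
    have h5 : (((univ \ S).card : ℕ) : ℝ) ≤ ((univ \ S0).card : ℝ) + ((univ \ S1).card : ℝ) := by
      exact_mod_cast h2
    have h6 : ((univ \ S0).card : ℝ) ≤ K * R := by exact_mod_cast hS0c
    linarith
  calc (((univ \ S).card : ℕ) : ℝ) ≤ K * R + C * R := h4
    _ = (K + C) * R := by ring
    _ ≤ (K + C) * (2 * Real.sqrt n) := by
        apply mul_le_mul_of_nonneg_left _ (by linarith)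
        linarith
    _ = 2 * (K + C) * Real.sqrt n := by ring

open Pool.Agent.MaxDeg in
/-- all graphs on `Fin n` -/
lemma fin_bound (k : ℕ) (hk : 1 ≤ k) : ∃ C : ℝ, ∀ (n : ℕ) (G : SimpleGraph (Fin n)),
    ∃ D : Finset (Fin n), (D.card : ℝ) ≤ C * Real.sqrt n ∧ Ok k G D := by
  classical
  obtain ⟨C, hC, N, h⟩ := large k hk
  refine ⟨max C N, ?_⟩
  intro n G
  by_cases hn : N ≤ n
  · obtain ⟨S, hS, hg⟩ := h (Fin n) G (by rw [Fintype.card_fin]; exact hn)
    refine ⟨univ \ S, ?_, ?_⟩
    · refine hS.trans ?_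
      rw [Fintype.card_fin]
      exact mul_le_mul_of_nonneg_right (le_max_left _ _) (Real.sqrt_nonneg _)
    · rw [ok_iff]
      left
      have hm : ∀ x : Fin n, x ∉ univ \ S ↔ x ∈ S := by
        intro x
        simp
      have hdeg : ∀ w : Fin n, Nat.card {x : Fin n // x ∉ univ \ S ∧ G.Adj w x} =
          (nb G S w).card := by
        intro w
        rw [Nat.card_eq_fintype_card, Fintype.card_subtype]
        congr 1
        ext x
        rw [mem_nb, mem_filter]
        simp
      have : Nat.card {w : Fin n // w ∉ univ \ S ∧ ∀ w' : Fin n, w' ∉ univ \ S →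
          Nat.card {x : Fin n // x ∉ univ \ S ∧ G.Adj w' x} ≤
            Nat.card {x : Fin n // x ∉ univ \ S ∧ G.Adj w x}} =
          (S.filter (fun v => ∀ w ∈ S, (nb G S w).card ≤ (nb G S v).card)).card := by
        have h5 : {w : Fin n // w ∉ univ \ S ∧ ∀ w' : Fin n, w' ∉ univ \ S →
            Nat.card {x : Fin n // x ∉ univ \ S ∧ G.Adj w' x} ≤
              Nat.card {x : Fin n // x ∉ univ \ S ∧ G.Adj w x}} ≃
            {w : Fin n // w ∈ S.filter (fun v => ∀ w ∈ S, (nb G S w).card ≤ (nb G S v).card)} := by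
          refine Equiv.subtypeEquivRight ?_
          intro x
          rw [mem_filter, hm]
          refine and_congr_right (fun _ => ?_)
          refine forall_congr' (fun w' => ?_)
          rw [hm, hdeg, hdeg]
        rw [Nat.card_congr h5, Nat.card_eq_fintype_card, Fintype.card_coe]
      rw [this]
      unfold Good at hg
      convert hg
  · refine ⟨univ, ?_, ?_⟩
    · rw [card_univ, Fintype.card_fin]
      have h1 : (n : ℝ) ≤ N := by
        have : n ≤ N := by omega
        exact_mod_cast this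
      rcases Nat.eq_zero_or_pos n with h0 | h0
      · subst h0
        simp
      · have h2 : (1 : ℝ) ≤ Real.sqrt n := by
          rw [Real.one_le_sqrt]
          exact_mod_cast h0
        have h3 : (N : ℝ) ≤ max C N := le_max_right _ _
        have h4 : (0 : ℝ) ≤ N := Nat.cast_nonneg _
        nlinarith
    · rw [ok_iff]
      right
      have : Nat.card {v : Fin n // v ∉ (univ : Finset (Fin n))} = 0 := by
        rw [Nat.card_eq_zero]
        left
        exact ⟨fun x => x.2 (mem_univ _)⟩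
      rw [this]
      omega

lemma fk_le {V : Type u} (k : ℕ) (G : SimpleGraph V) (D : Finset V) (h : Ok k G D) :
    fk k G ≤ D.card := Nat.sInf_le ⟨D, rfl, h⟩

lemma ok_univ {V : Type u} [Fintype V] (k : ℕ) (hk : 1 ≤ k) (G : SimpleGraph V) :
    Ok k G univ := by
  rw [ok_iff]
  right
  have : Nat.card {v : V // v ∉ (univ : Finset V)} = 0 := by
    rw [Nat.card_eq_zero]
    left
    exact ⟨fun x => x.2 (mem_univ _)⟩
  rw [this]
  omega

lemma fk_spec {V : Type u} [Fintype V] (k : ℕ) (hk : 1 ≤ k) (G : SimpleGraph V) :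
    ∃ D : Finset V, D.card = fk k G ∧ Ok k G D :=
  Nat.sInf_mem (s := {d | ∃ D : Finset V, D.card = d ∧ Ok k G D})
    ⟨_, univ, rfl, ok_univ k hk G⟩

lemma bdd (n k : ℕ) (hk : 1 ≤ k) :
    BddAbove {m | ∃ j ≤ n, ∃ G : SimpleGraph (Fin j), fk k G = m} := by
  refine ⟨n, ?_⟩
  rintro m ⟨j, hj, G, rfl⟩
  refine (fk_le k G univ (ok_univ k hk G)).trans ?_
  rw [card_univ, Fintype.card_fin]
  exact hj

/-- **Conjecture of Caro and Yuster.** For every `k ≥ 1` there is a constant `c` such that
`f(n,k) ≤ c √n` for all `n`; here `f(n,k)` is really the maximum of `f_k` over all graphs with at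
most `n` vertices, and `f_k(G)` is really attained by a set of vertices. -/
theorem result (k : ℕ) (hk : 1 ≤ k) :
    (∃ c : ℝ, ∀ n : ℕ, (f n k : ℝ) ≤ c * Real.sqrt n) ∧
      ∀ (V : Type u) [Fintype V] (G : SimpleGraph V),
        (∃ D : Finset V, D.card = fk k G ∧
          (k ≤ Nat.card (MaxDegreeVertices (G.induce {v | v ∉ D})) ∨
            Nat.card {v | v ∉ D} < k)) ∧
        ∀ n : ℕ, Fintype.card V ≤ n → fk k G ≤ f n k := by
  obtain ⟨C, hC⟩ := fin_bound k hk
  refine ⟨⟨max C 0, ?_⟩, ?_⟩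
  · intro n
    have hne : {m | ∃ j ≤ n, ∃ G : SimpleGraph (Fin j), fk k G = m}.Nonempty :=
      ⟨_, 0, Nat.zero_le _, ⊥, rfl⟩
    obtain ⟨j, hj, G, hG⟩ := Nat.sSup_mem hne (bdd n k hk)
    obtain ⟨D, hD, hok⟩ := hC j G
    have h1 : fk k G ≤ D.card := fk_le k G D hok
    have h2 : (f n k : ℝ) = (fk k G : ℝ) := by
      unfold f
      rw [← hG]
    rw [h2]
    calc (fk k G : ℝ) ≤ D.card := by exact_mod_cast h1
      _ ≤ C * Real.sqrt j := hD
      _ ≤ max C 0 * Real.sqrt j :=
          mul_le_mul_of_nonneg_right (le_max_left _ _) (Real.sqrt_nonneg _)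
      _ ≤ max C 0 * Real.sqrt n := by
          apply mul_le_mul_of_nonneg_left _ (le_max_right _ _)
          exact Real.sqrt_le_sqrt (by exact_mod_cast hj)
  · intro V _ G
    refine ⟨fk_spec k hk G, ?_⟩
    intro n hn
    have e : Fin (Fintype.card V) ≃ V := (Fintype.equivFin V).symm
    obtain ⟨D, hD, hok⟩ := fk_spec k hk (G.comap e)
    have h1 : fk k G ≤ (D.map e.toEmbedding).card := fk_le k G _ (ok_map e k G D hok)
    rw [card_map, hD] at h1
    exact h1.trans (le_csSup (bdd n k hk) ⟨_, hn, G.comap e, rfl⟩)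

end Pool.Agent.Results.MP_7c5d5d_co.MaxDegreeDeletion
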